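import Pool.Agent.W300.FT.Stm

set_option autoImplicit false

/-!
Part LOC3 of project FT (helper89).
-/

namespace Pool.Agent.W89.FT

open MeasureTheory ProbabilityTheory Pool.Agent.W300.FT

theorem loc3 (hmix : S_MIX) (h1 : S_LOC1) (h2 : S_LOC2) : S_LOC3 := by
  intro V G F hV hF m v
  have hPI : IsProbabilityMeasure (PI V) := by unfold PI; infer_instance
  have hm := hmix V (Bal G m v) hV
  obtain ⟨hLm, hGm⟩ := h1 V G F hV hF m v
  have hFv : Measurable (fun y => F y v) := (measurable_pi_apply v).comp hF
  have key : ∀ k : K, ∀ᵐ y ∂(PI V), y ∈ Loc G F m v → F y v k = Gf G F m v y k := by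
    intro k
    have hmeas : MeasurableSet {z | z ∈ Loc G F m v → F z v k = Gf G F m v z k} := by
      have e1 : MeasurableSet {z | F z v k = Gf G F m v z k} :=
        (((measurable_pi_apply k).comp hFv).prodMk ((measurable_pi_apply k).comp hGm))
          (MeasurableSet.of_discrete : MeasurableSet {p : Bool × Bool | p.1 = p.2})
      have e2 : {z | z ∈ Loc G F m v → F z v k = Gf G F m v z k} =
          (Loc G F m v)ᶜ ∪ {z | F z v k = Gf G F m v z k} := by
        ext z
        simp only [Set.mem_setOf_eq, Set.mem_union, Set.mem_compl_iff]
        exact imp_iff_not_or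
      rw [e2]; exact hLm.compl.union e1
    have hpre : MeasurableSet {p : (V → unitInterval) × (V → unitInterval) |
        mix (Bal G m v) p.1 p.2 ∈ Loc G F m v →
          F (mix (Bal G m v) p.1 p.2) v k = Gf G F m v (mix (Bal G m v) p.1 p.2) k} :=
      hm.measurable hmeas
    rw [← hm.map_eq, ae_map_iff hm.measurable.aemeasurable hmeas,
      Measure.ae_prod_iff_ae_ae hpre]
    refine Filter.Eventually.of_forall fun y => ?_
    by_cases hy : y ∈ Loc G F m v
    · have hy0 : ∀ᵐ p ∂((PI V).prod (PI V)),
          F (mix (Bal G m v) y p.1) v = F (mix (Bal G m v) y p.2) v := hy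
      have h3 := Measure.ae_ae_of_ae_prod hy0
      obtain ⟨y1, hy1⟩ := h3.exists
      have hG : Gf G F m v y k = F (mix (Bal G m v) y y1) v k := by
        unfold Gf
        cases hc : F (mix (Bal G m v) y y1) v k with
        | true =>
          rw [decide_eq_true_iff]
          have h5 : PI V {y' | F (mix (Bal G m v) y y') v k = true} = 1 := by
            have h6 : {y' | F (mix (Bal G m v) y y') v k = true} ∈ ae (PI V) := by
              filter_upwards [hy1] with y2 hy2
              show F (mix (Bal G m v) y y2) v k = true
              rw [← hc]; exact (congrFun hy2 k).symm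
            rw [measure_congr (Filter.eventuallyEq_univ.2 h6), measure_univ]
          rw [h5]
          exact ENNReal.half_lt_self one_ne_zero ENNReal.one_ne_top
        | false =>
          rw [decide_eq_false_iff_not]
          have h5 : PI V {y' | F (mix (Bal G m v) y y') v k = true} = 0 := by
            rw [measure_eq_zero_iff_ae_notMem]
            filter_upwards [hy1] with y2 hy2
            show ¬ F (mix (Bal G m v) y y2) v k = true
            have h7 : F (mix (Bal G m v) y y2) v k = false := by
              rw [← hc]; exact (congrFun hy2 k).symm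
            rw [h7]; simp
          rw [h5]
          simp
      filter_upwards [hy1] with y2 hy2 _
      have h4 := h2 V G F m v y (mix (Bal G m v) y y2)
        (fun u hu => by unfold mix; rw [if_pos hu])
      rw [← h4.2, hG]; exact (congrFun hy2 k).symm
    · refine Filter.Eventually.of_forall fun y2 h => ?_
      have h4 := h2 V G F m v y (mix (Bal G m v) y y2)
        (fun u hu => by unfold mix; rw [if_pos hu])
      exact absurd (h4.1.2 h) hy
  have hall := ae_all_iff.2 key
  filter_upwards [hall] with y hy hL
  funext k; exact hy k hL

end Pool.Agent.W89.FT
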